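import Pool.Agent.Y14.RE.Up
import Pool.Agent.Results.MP_9bed89_co.EdgeAsymptotic
set_option autoImplicit false
open Filter Topology SimpleGraph

namespace Pool.Agent.Y14.RE

open Pool.Agent.Results.MP_9bed89_co.EdgeAsymptotic

/-- The counting lower bound. -/
theorem low (n : ℕ) (hn2 : 2 ≤ n) : 1 ≤ R n ∧ (n : ℝ) ≤ 1 + R n * Real.logb 2 (R n) := by
  obtain ⟨k, G, hG, hGR⟩ := R_mem n (exists_edges n)
  rw [← hGR]
  set N := ramseyNumber G with hN
  have hspec := ramseyNumber_spec G
  rw [← hN] at hspec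
  have hN1 : 1 ≤ N := by
    by_contra h0
    have h0' : N = 0 := by omega
    have hk : k = 0 := by
      rcases hspec ⊥ with h1 | h1
      · obtain ⟨f⟩ := h1
        have := Fintype.card_le_of_injective _ f.injective
        simp only [Fintype.card_fin] at this
        omega
      · obtain ⟨f⟩ := h1
        have := Fintype.card_le_of_injective _ f.injective
        simp only [Fintype.card_fin] at this
        omega
    subst hk
    have : G.edgeSet.ncard = 0 := by
      rw [Set.ncard_eq_zero]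
      ext x
      induction x using Sym2.ind with
      | _ u v => exact u.elim0
    omega
  have hcomb := H866R3.Edge.lower_comb G hN1 hspec
  rw [hG] at hcomb
  have hNR : (1 : ℝ) ≤ N := by exact_mod_cast hN1
  have hN0 : (0 : ℝ) < N := by linarith
  refine ⟨hN1, ?_⟩
  have h1 : (2 : ℝ) ^ n ≤ 2 * (N : ℝ) ^ N := by exact_mod_cast hcomb
  have h2 : Real.logb 2 ((2 : ℝ) ^ n) ≤ Real.logb 2 (2 * (N : ℝ) ^ N) :=
    Real.logb_le_logb_of_le (by norm_num) (by positivity) h1
  rw [Real.logb_pow, Real.logb_mul (by norm_num) (by positivity), Real.logb_pow,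
    Real.logb_self_eq_one (by norm_num)] at h2
  linarith

/-- Basic facts for large `n`. -/
lemma facts (δ B : ℝ) (hδ : 0 < δ) : ∀ᶠ n : ℕ in atTop, 2 ≤ n ∧
    B ≤ Real.logb 2 (Real.logb 2 (n : ℝ)) ∧ B ≤ Real.logb 2 (n : ℝ) ∧
    Real.logb 2 (Real.logb 2 (n : ℝ)) ≤ δ * Real.logb 2 (n : ℝ) ∧
    B * Real.logb 2 (n : ℝ) ^ 2 ≤ n := by
  have hcast : Tendsto (fun N : ℕ => (N : ℝ)) atTop atTop := tendsto_natCast_atTop_atTop
  have hl : 0 < Real.log 2 := Real.log_pos (by norm_num)
  have hlogt : Tendsto (fun N : ℕ => Real.logb 2 (N : ℝ)) atTop atTop :=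
    (Real.tendsto_logb_atTop (by norm_num)).comp hcast
  have hlogt2 : Tendsto (fun N : ℕ => Real.logb 2 (Real.logb 2 (N : ℝ))) atTop atTop :=
    (Real.tendsto_logb_atTop (by norm_num)).comp hlogt
  have a1 : ∀ᶠ x : ℝ in atTop, Real.logb 2 x ≤ δ * x := by
    have h := (Real.isLittleO_log_id_atTop).bound (c := Real.log 2 * δ) (by positivity)
    filter_upwards [h, eventually_ge_atTop (1 : ℝ)] with x hx hx2
    have e1 : ‖id x‖ = x := by
      rw [id, Real.norm_eq_abs, abs_of_nonneg (by linarith)]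
    rw [e1] at hx
    rw [Real.logb, div_le_iff₀ hl]
    calc Real.log x ≤ Real.log 2 * δ * x := (le_abs_self _).trans hx
      _ = _ := by ring
  have a2 : ∀ᶠ x : ℝ in atTop, B * Real.logb 2 x ^ 2 ≤ x := by
    have h := (Real.isLittleO_pow_log_id_atTop (n := 2)).bound
      (c := Real.log 2 ^ 2 / (|B| + 1)) (by positivity)
    filter_upwards [h, eventually_ge_atTop (1 : ℝ)] with x hx hx2
    have e1 : ‖id x‖ = x := by
      rw [id, Real.norm_eq_abs, abs_of_nonneg (by linarith)]
    rw [e1, Real.norm_eq_abs] at hx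
    have h1 := (le_abs_self _).trans hx
    have hB : 0 < |B| + 1 := by positivity
    have h2 : (|B| + 1) * Real.logb 2 x ^ 2 ≤ x := by
      rw [Real.logb, div_pow, mul_div_assoc', div_le_iff₀ (by positivity)]
      have h3 : (|B| + 1) * Real.log x ^ 2 ≤ (|B| + 1) * (Real.log 2 ^ 2 / (|B| + 1) * x) :=
        mul_le_mul_of_nonneg_left h1 hB.le
      have h4 : (|B| + 1) * (Real.log 2 ^ 2 / (|B| + 1) * x) = x * Real.log 2 ^ 2 := by
        field_simp
      linarith
    have h5 : B * Real.logb 2 x ^ 2 ≤ (|B| + 1) * Real.logb 2 x ^ 2 := by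
      apply mul_le_mul_of_nonneg_right _ (by positivity)
      have := le_abs_self B
      linarith
    linarith
  filter_upwards [eventually_ge_atTop 2, hlogt2.eventually_ge_atTop B,
    hlogt.eventually_ge_atTop B, hlogt.eventually a1, hcast.eventually a2] with n b1 b2 b3 b4 b5
  exact ⟨b1, b2, b3, b4, b5⟩

/-- Lower bound with the second order term. -/
theorem lower_second (ε : ℝ) (hε : 0 < ε) (hε1 : ε < 1) : ∀ᶠ n : ℕ in atTop,
    (n : ℝ) / Real.logb 2 n * (1 + (1 - ε) * (Real.logb 2 (Real.logb 2 n) / Real.logb 2 n)) ≤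
      R n := by
  filter_upwards [facts 1 (8 / ε + 2) one_pos] with n hn
  obtain ⟨h2, hmu, hlam, hmulam, hsq⟩ := hn
  have hnR : (2 : ℝ) ≤ n := by exact_mod_cast h2
  have hn0 : (0 : ℝ) < n := by linarith
  obtain ⟨hR1, hR⟩ := low n h2
  set L := Real.logb 2 (n : ℝ) with hL
  set μ := Real.logb 2 L with hmudef
  have h8 : 0 < 8 / ε := by positivity
  have hL0 : 0 < L := by linarith
  have hmu0 : 0 < μ := by linarith
  set a := μ / L with ha
  have ha0 : 0 < a := by positivity
  have ha1 : a ≤ 1 := by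
    rw [ha, div_le_one hL0]
    linarith
  by_contra hcon
  push Not at hcon
  have hNR : (1 : ℝ) ≤ R n := by exact_mod_cast hR1
  have hN0 : (0 : ℝ) < R n := by linarith
  set r : ℝ := (R n : ℝ) with hr
  have hnL : 0 < (n : ℝ) / L := by positivity
  have hr1 : r ≤ (n : ℝ) / L * (1 + a) := by
    refine hcon.le.trans ?_
    apply mul_le_mul_of_nonneg_left _ hnL.le
    nlinarith
  have hlog : Real.logb 2 r ≤ L - μ + 2 * a := by
    have g1 : Real.logb 2 r ≤ Real.logb 2 ((n : ℝ) / L * (1 + a)) :=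
      Real.logb_le_logb_of_le (by norm_num) hN0 hr1
    rw [Real.logb_mul hnL.ne' (by linarith), Real.logb_div hn0.ne' hL0.ne'] at g1
    have g2 : Real.logb 2 (1 + a) ≤ 2 * a := by
      have hl : 0 < Real.log 2 := Real.log_pos (by norm_num)
      rw [Real.logb, div_le_iff₀ hl]
      have g3 : Real.log (1 + a) ≤ a := by
        have := Real.log_le_sub_one_of_pos (by linarith : 0 < 1 + a)
        linarith
      have g4 : 1 / 2 ≤ Real.log 2 := by
        have := Real.log_two_gt_d9
        linarith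
      nlinarith
    linarith
  have hlog0 : 0 ≤ Real.logb 2 r := Real.logb_nonneg (by norm_num) hNR
  have hX0 : 0 ≤ L - μ + 2 * a := hlog0.trans hlog
  have hprod : r * Real.logb 2 r ≤ (n : ℝ) / L * (1 + (1 - ε) * a) * (L - μ + 2 * a) :=
    mul_le_mul hcon.le hlog hlog0 (by
      have : 0 ≤ 1 + (1 - ε) * a := by nlinarith
      positivity)
  have hfin : (n : ℝ) / L * (1 + (1 - ε) * a) * (L - μ + 2 * a) ≤ n * (1 - ε / 2 * a) := by
    have e1 : (n : ℝ) / L * (1 + (1 - ε) * a) * (L - μ + 2 * a) =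
        n * ((1 + (1 - ε) * a) * (1 - a + 2 * a / L)) := by
      rw [ha]
      field_simp
    rw [e1]
    apply mul_le_mul_of_nonneg_left _ hn0.le
    have e2 : 2 * a / L ≤ ε / 4 * a := by
      rw [div_le_iff₀ hL0]
      have : 8 ≤ ε * L := by
        have := mul_le_mul_of_nonneg_left hlam hε.le
        have e3 : ε * (8 / ε + 2) = 8 + 2 * ε := by field_simp
        rw [e3] at this
        linarith
      nlinarith
    have e3 : 0 ≤ 2 * a / L := by positivity
    have e4 : 2 * a / L ≤ a := by nlinarith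
    nlinarith [mul_nonneg (by linarith : (0:ℝ) ≤ 1 - ε) ha0.le,
      mul_nonneg (mul_nonneg (by linarith : (0:ℝ) ≤ 1 - ε) ha0.le) (by linarith : 0 ≤ a - 2 * a / L)]
  have hbig : 1 < n * (ε / 2 * a) := by
    -- n ≥ (8/ε+2) L^2
    have g1 : (8 / ε) * L ^ 2 ≤ n := by
      have : 0 ≤ 2 * L ^ 2 := by positivity
      nlinarith
    have g2 : 8 * L ^ 2 ≤ ε * n := by
      have := mul_le_mul_of_nonneg_left g1 hε.le
      have e3 : ε * (8 / ε * L ^ 2) = 8 * L ^ 2 := by field_simp
      rw [e3] at this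
      exact this
    have g3 : (n : ℝ) * (ε / 2 * a) = (ε * n) * μ / (2 * L) := by
      rw [ha]
      field_simp
    rw [g3, lt_div_iff₀ (by positivity)]
    have g4 : 8 * L ^ 2 * μ ≤ ε * n * μ := mul_le_mul_of_nonneg_right g2 hmu0.le
    have g5 : 2 ≤ L := by linarith
    have g6 : 2 ≤ μ := by linarith
    nlinarith [mul_pos hL0 hmu0]
  nlinarith

/-- Upper bound with the second order term. -/
theorem upper_second (ε : ℝ) (hε : 0 < ε) (hε1 : ε < 1) : ∀ᶠ n : ℕ in atTop,
    (R n : ℝ) ≤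
      (n : ℝ) / Real.logb 2 n * (1 + (6 + ε) * (Real.logb 2 (Real.logb 2 n) / Real.logb 2 n)) := by
  obtain ⟨N0, hN0⟩ := eventually_atTop.1 upper2
  filter_upwards [facts (ε / 2000) (2000 / ε + N0 + 2) (by positivity)] with n hn
  obtain ⟨h2, hmu, hlam, hmulam, hsq⟩ := hn
  have hnR : (2 : ℝ) ≤ n := by exact_mod_cast h2
  have hn0 : (0 : ℝ) < n := by linarith
  set L := Real.logb 2 (n : ℝ) with hL
  set μ := Real.logb 2 L with hmudef
  have hN0R : (0 : ℝ) ≤ N0 := Nat.cast_nonneg N0
  have h8 : 2000 < 2000 / ε := by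
    rw [lt_div_iff₀ hε]
    linarith
  have hL0 : 0 < L := by linarith
  have hmu0 : 0 < μ := by linarith
  set a := μ / L with ha
  have ha0 : 0 < a := by positivity
  have ha1 : a ≤ ε / 2000 := by
    rw [ha, div_le_iff₀ hL0]
    exact hmulam
  have hnL : 0 < (n : ℝ) / L := by positivity
  have hnL2 : L ≤ (n : ℝ) / L := by
    rw [le_div_iff₀ hL0]
    have : 1 * L ^ 2 ≤ (2000 / ε + N0 + 2) * L ^ 2 :=
      mul_le_mul_of_nonneg_right (by linarith) (by positivity)
    nlinarith
  -- the product `(n/L) (ε/2) a ≥ 1`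
  have hone : 1 ≤ (n : ℝ) / L * (ε / 2 * a) := by
    have g1 : (n : ℝ) / L * (ε / 2 * a) = n * ε * μ / (2 * L ^ 2) := by
      rw [ha]
      field_simp
    rw [g1, le_div_iff₀ (by positivity)]
    have g2 : (2000 / ε) * L ^ 2 ≤ n := by
      have : 0 ≤ (N0 + 2) * L ^ 2 := by positivity
      nlinarith
    have g3 : 2000 * L ^ 2 ≤ ε * n := by
      have := mul_le_mul_of_nonneg_left g2 hε.le
      have e3 : ε * (2000 / ε * L ^ 2) = 2000 * L ^ 2 := by field_simp
      rw [e3] at this
      exact this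
    have g4 : 2000 * L ^ 2 * μ ≤ ε * n * μ := mul_le_mul_of_nonneg_right g3 hmu0.le
    have g5 : 1 ≤ μ := by linarith
    nlinarith [sq_nonneg L]
  set x : ℝ := (n : ℝ) / L * (1 + (6 + ε) * a) with hx
  have hx0 : 0 ≤ x := by positivity
  set N := ⌊x⌋₊ with hN
  have hNle : (N : ℝ) ≤ x := Nat.floor_le hx0
  have hNge : x - 1 < N := Nat.sub_one_lt_floor _
  have hNge2 : (n : ℝ) / L * (1 + (6 + ε / 2) * a) ≤ N := by
    have : x = (n : ℝ) / L * (1 + (6 + ε / 2) * a) + (n : ℝ) / L * (ε / 2 * a) := by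
      rw [hx]
      ring
    linarith
  have hNnL : (n : ℝ) / L ≤ N := by
    refine le_trans ?_ hNge2
    have : 0 ≤ (6 + ε / 2) * a := by positivity
    nlinarith
  have hNN0 : N0 ≤ N := by
    have : (N0 : ℝ) ≤ N := by linarith
    exact_mod_cast this
  have hNR0 : (0 : ℝ) < N := lt_of_lt_of_le hnL hNnL
  have hNn : (N : ℝ) ≤ n := by
    refine hNle.trans ?_
    have g1 : 1 + (6 + ε) * a ≤ L := by nlinarith
    calc x ≤ (n : ℝ) / L * L := mul_le_mul_of_nonneg_left g1 hnL.le
      _ = n := by field_simp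
  obtain ⟨q, d, s, J, hc, hJ⟩ := hN0 N hNN0
  have hℓlow : L - μ ≤ Real.logb 2 (N : ℝ) := by
    have g1 : Real.logb 2 ((n : ℝ) / L) ≤ Real.logb 2 (N : ℝ) :=
      Real.logb_le_logb_of_le (by norm_num) hnL hNnL
    rw [Real.logb_div hn0.ne' hL0.ne'] at g1
    exact g1
  have hℓup : Real.logb 2 (N : ℝ) ≤ L := Real.logb_le_logb_of_le (by norm_num) hNR0 hNn
  have hℓpos : 0 < Real.logb 2 (N : ℝ) := by nlinarith
  have hmm : Real.logb 2 (Real.logb 2 (N : ℝ)) ≤ μ :=
    Real.logb_le_logb_of_le (by norm_num) hℓpos hℓup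
  have hedges : (n : ℝ) ≤ ((J * d * s : ℕ) : ℝ) := by
    refine le_trans ?_ hJ
    have g1 : L - 6 * μ - 47 ≤
        Real.logb 2 (N : ℝ) - 5 * Real.logb 2 (Real.logb 2 (N : ℝ)) - 47 := by linarith
    have g0 : 0 ≤ L - 6 * μ - 47 := by nlinarith
    calc (n : ℝ) ≤ ((n : ℝ) / L * (1 + (6 + ε / 2) * a)) * (L - 6 * μ - 47) := by
          have e1 : ((n : ℝ) / L * (1 + (6 + ε / 2) * a)) * (L - 6 * μ - 47) =
              n * ((1 + (6 + ε / 2) * a) * (1 - 6 * a - 47 / L)) := by
            rw [ha]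
            field_simp
          rw [e1]
          have e2 : 47 / L ≤ ε / 8 * a := by
            rw [ha, div_le_iff₀ hL0]
            have : ε / 8 * (μ / L) * L = ε / 8 * μ := by field_simp
            rw [this]
            have g3 : 2000 ≤ ε * μ := by
              have := mul_le_mul_of_nonneg_left hmu hε.le
              have e3 : ε * (2000 / ε + N0 + 2) = 2000 + ε * (N0 + 2) := by field_simp; ring
              rw [e3] at this
              have : 0 ≤ ε * (N0 + 2) := by positivity
              linarith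
            linarith
          have e3 : 0 ≤ 47 / L := by positivity
          have e4 : 1 ≤ (1 + (6 + ε / 2) * a) * (1 - 6 * a - 47 / L) := by
            have f1 : (1 + (6 + ε / 2) * a) * (1 - 6 * a - ε / 8 * a) ≤
                (1 + (6 + ε / 2) * a) * (1 - 6 * a - 47 / L) := by
              apply mul_le_mul_of_nonneg_left _ (by positivity)
              linarith
            refine le_trans ?_ f1
            have f2 : (1 + (6 + ε / 2) * a) * (1 - 6 * a - ε / 8 * a) =
                1 + a * (3 * ε / 8 - (6 + ε / 2) * (6 + ε / 8) * a) := by ring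
            rw [f2]
            have f3 : (6 + ε / 2) * (6 + ε / 8) ≤ 49 := by nlinarith
            have f4 : (6 + ε / 2) * (6 + ε / 8) * a ≤ 49 * (ε / 2000) :=
              mul_le_mul f3 ha1 ha0.le (by norm_num)
            have f5 : 0 ≤ a * (3 * ε / 8 - (6 + ε / 2) * (6 + ε / 8) * a) := by
              apply mul_nonneg ha0.le
              linarith
            linarith
          nlinarith
      _ ≤ (N : ℝ) * (L - 6 * μ - 47) := mul_le_mul_of_nonneg_right hNge2 g0
      _ ≤ _ := mul_le_mul_of_nonneg_left g1 hNR0.le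
  have hle : n ≤ J * d * s := by exact_mod_cast hedges
  have hR : (R n : ℝ) ≤ N := by exact_mod_cast R_le hc hle
  exact hR.trans hNle

end Pool.Agent.Y14.RE
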