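import Pool.Agent.H866R3.EdgeUpper
set_option autoImplicit false
open Filter Topology

namespace Pool.Agent.Y14.RE

open H866R3.Edge

lemma ev_log : ∀ᶠ x : ℝ in atTop, 5 * Real.logb 2 x + 47 ≤ x / 2 := by
  have h := (Real.isLittleO_log_id_atTop).bound (c := Real.log 2 / 20)
    (by have := Real.log_pos (by norm_num : (1:ℝ) < 2); positivity)
  filter_upwards [h, eventually_ge_atTop (200 : ℝ)] with x hx hx2
  have hl : 0 < Real.log 2 := Real.log_pos (by norm_num)
  have h1 : Real.log x ≤ Real.log 2 / 20 * x := by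
    have e1 : ‖id x‖ = x := by
      rw [id, Real.norm_eq_abs, abs_of_nonneg (by linarith)]
    rw [e1] at hx
    exact (le_abs_self _).trans hx
  have h2 : Real.logb 2 x ≤ x / 20 := by
    rw [Real.logb, div_le_iff₀ hl]
    linarith
  linarith

lemma ev_pow : ∀ᶠ N : ℝ in atTop, 100 * Real.logb 2 N ^ 6 ≤ N := by
  have hl : 0 < Real.log 2 := Real.log_pos (by norm_num)
  have h := (Real.isLittleO_pow_log_id_atTop (n := 6)).bound (c := Real.log 2 ^ 6 / 100)
    (by positivity)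
  filter_upwards [h, eventually_ge_atTop (1 : ℝ)] with x hx hx2
  have e1 : ‖id x‖ = x := by
    rw [id, Real.norm_eq_abs, abs_of_nonneg (by linarith)]
  rw [e1, Real.norm_eq_abs] at hx
  have h1 := (le_abs_self _).trans hx
  rw [Real.logb, div_pow, mul_div_assoc', div_le_iff₀ (by positivity)]
  linarith

lemma exp24 : Real.exp 24 ≤ 2 ^ 35 := by
  have h1 : Real.exp 24 = Real.exp 1 ^ 24 := by
    rw [← Real.exp_nat_mul]
    norm_num
  rw [h1]
  have h2 := Real.exp_one_lt_d9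
  have h3 : Real.exp 1 ^ 24 ≤ (2.7182818286 : ℝ) ^ 24 :=
    pow_le_pow_left₀ (Real.exp_pos 1).le h2.le 24
  refine h3.trans ?_
  norm_num

theorem upper2 : ∀ᶠ N : ℕ in atTop, ∃ q d s J, Cond q N d s J ∧
    (N : ℝ) * (Real.logb 2 N - 5 * Real.logb 2 (Real.logb 2 N) - 47) ≤
      ((J * d * s : ℕ) : ℝ) := by
  have hcast : Tendsto (fun N : ℕ => (N : ℝ)) atTop atTop := tendsto_natCast_atTop_atTop
  have hlogt : Tendsto (fun N : ℕ => Real.logb 2 (N : ℝ)) atTop atTop :=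
    (Real.tendsto_logb_atTop (by norm_num)).comp hcast
  filter_upwards [hlogt.eventually ev_log, hcast.eventually ev_pow,
    hlogt.eventually_ge_atTop 1000, eventually_ge_atTop 2] with N h1 h2 h3 h4
  set ℓ := Real.logb 2 (N : ℝ) with hℓ
  set m := Real.logb 2 ℓ with hm
  have hN0 : (0 : ℝ) < N := by
    have : (2 : ℝ) ≤ N := by exact_mod_cast h4
    linarith
  have hℓ0 : 0 < ℓ := by linarith
  have hNℓ : (2 : ℝ) ^ ℓ = N := Real.rpow_logb (by norm_num) (by norm_num) hN0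
  have hmℓ : (2 : ℝ) ^ m = ℓ := Real.rpow_logb (by norm_num) (by norm_num) hℓ0
  set q := ⌈ℓ⌉₊ with hq
  have hqge : ℓ ≤ q := Nat.le_ceil _
  have hqlt : (q : ℝ) < ℓ + 1 := Nat.ceil_lt_add_one hℓ0.le
  have hq2 : (q : ℝ) ≤ 2 * ℓ := by linarith
  have hqR : (1000 : ℝ) ≤ q := by linarith
  have hqN : 1000 ≤ q := by exact_mod_cast hqR
  have hq0 : (0 : ℝ) < q := by linarith
  set D : ℝ := ℓ - 5 * m - 42 with hD
  have hD0 : 0 ≤ D := by linarith
  set d := ⌊D⌋₊ with hd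
  have hdle : (d : ℝ) ≤ D := Nat.floor_le hD0
  have hdge : D - 1 < d := Nat.sub_one_lt_floor _
  have hm0 : 0 ≤ m := Real.logb_nonneg (by norm_num) (by linarith)
  have hdq : (d : ℝ) ≤ q := by linarith
  set ρ : ℝ := 1 / 2 - 6 / (q : ℝ) with hρ
  have hx : 12 / (q : ℝ) ≤ 1 / 2 := by
    rw [div_le_iff₀ hq0]
    linarith
  have hx0 : 0 < 12 / (q : ℝ) := by positivity
  have hρe : ρ = (1 / 2) * (1 - 12 / (q : ℝ)) := by rw [hρ]; ring
  have hρ0 : 0 < ρ := by
    rw [hρe]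
    have : 0 < 1 - 12 / (q : ℝ) := by linarith
    positivity
  have hρ1 : ρ ≤ 1 := by
    rw [hρe]
    linarith
  -- the power
  have hexpq : (1 / 2 : ℝ) ^ 35 ≤ (1 - 12 / (q : ℝ)) ^ d := by
    have g1 : Real.exp (-(24 / (q : ℝ))) ≤ 1 - 12 / (q : ℝ) := by
      set x := 12 / (q : ℝ) with hx'
      have e24 : 24 / (q : ℝ) = 2 * x := by rw [hx']; ring
      rw [e24]
      have g2 : 1 / (1 - x) ≤ Real.exp (2 * x) := by
        have g3 : 1 / (1 - x) ≤ 2 * x + 1 := by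
          rw [div_le_iff₀ (by linarith)]
          nlinarith
        exact g3.trans (Real.add_one_le_exp _)
      rw [Real.exp_neg, inv_eq_one_div, div_le_iff₀ (Real.exp_pos _)]
      rw [div_le_iff₀ (by linarith)] at g2
      linarith
    have g4 : Real.exp (-(24 / (q : ℝ))) ^ d ≤ (1 - 12 / (q : ℝ)) ^ d :=
      pow_le_pow_left₀ (Real.exp_pos _).le g1 d
    refine le_trans ?_ g4
    rw [← Real.exp_nat_mul]
    have g5 : -(24 : ℝ) ≤ (d : ℝ) * -(24 / (q : ℝ)) := by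
      have : (d : ℝ) * (24 / (q : ℝ)) ≤ 24 := by
        rw [mul_div_assoc', div_le_iff₀ hq0]
        linarith
      linarith
    have g6 := Real.exp_le_exp.mpr g5
    refine le_trans ?_ g6
    rw [Real.exp_neg, one_div, inv_pow]
    exact inv_anti₀ (Real.exp_pos _) exp24
  have hhalf : ℓ ^ 5 * 2 ^ 42 ≤ (1 / 2 : ℝ) ^ d * N := by
    have g1 : (2 : ℝ) ^ (-D) ≤ (1 / 2 : ℝ) ^ d := by
      have : (1 / 2 : ℝ) ^ d = (2 : ℝ) ^ (-(d : ℝ)) := by
        rw [Real.rpow_neg (by norm_num), Real.rpow_natCast, one_div, inv_pow]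
      rw [this]
      apply Real.rpow_le_rpow_of_exponent_le (by norm_num)
      linarith
    have g2 : (2 : ℝ) ^ (-D) * N = ℓ ^ 5 * 2 ^ 42 := by
      nth_rewrite 1 [← hNℓ]
      rw [← Real.rpow_add (by norm_num)]
      have : -D + ℓ = m * (5 : ℕ) + (42 : ℕ) := by
        rw [hD]
        push_cast
        ring
      rw [this, Real.rpow_add (by norm_num), Real.rpow_natCast, Real.rpow_mul (by norm_num),
        hmℓ, Real.rpow_natCast]
    rw [← g2]
    exact mul_le_mul_of_nonneg_right g1 hN0.le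
  have hρN : 128 * ℓ ^ 5 ≤ ρ ^ d * N := by
    have e1 : ρ ^ d * N = ((1 / 2 : ℝ) ^ d * N) * (1 - 12 / (q : ℝ)) ^ d := by
      rw [hρe, mul_pow]
      ring
    rw [e1]
    calc 128 * ℓ ^ 5 = (ℓ ^ 5 * 2 ^ 42) * (1 / 2 : ℝ) ^ 35 := by norm_num; ring
      _ ≤ _ := mul_le_mul hhalf hexpq (by positivity) (by positivity)
  set s := ⌊ρ ^ d * (N / q)⌋₊ with hs
  have hsle : (s : ℝ) ≤ ρ ^ d * (N / q) := Nat.floor_le (by positivity)
  have hsge : ρ ^ d * (N / q) - 1 < s := Nat.sub_one_lt_floor _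
  have hs3 : 3 * (q : ℝ) ^ 4 ≤ s := by
    have g1 : 128 * ℓ ^ 5 / q ≤ ρ ^ d * (N / q) := by
      rw [← mul_div_assoc]
      exact div_le_div_of_nonneg_right hρN hq0.le
    have g2 : 64 * ℓ ^ 4 ≤ 128 * ℓ ^ 5 / q := by
      rw [le_div_iff₀ hq0]
      have : 64 * ℓ ^ 4 * q ≤ 64 * ℓ ^ 4 * (2 * ℓ) :=
        mul_le_mul_of_nonneg_left hq2 (by positivity)
      linarith
    have g3 : (q : ℝ) ^ 4 ≤ (2 * ℓ) ^ 4 := pow_le_pow_left₀ hq0.le hq2 4
    have g4 : (2 * ℓ) ^ 4 = 16 * ℓ ^ 4 := by ring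
    have g5 : 1 ≤ ℓ ^ 4 := one_le_pow₀ (by linarith)
    linarith
  have hq4 : 0 < (q : ℝ) ^ 4 := by positivity
  have hs0 : (0 : ℝ) < s := by linarith
  have hs1 : 1 ≤ s := by
    have : 0 < s := by exact_mod_cast hs0
    omega
  set J := ((q - 3) * N) / (q * s) with hJ
  have hqs0 : (0 : ℝ) < q * s := by positivity
  have hJup : (J : ℝ) * (q * s) ≤ (q - 3) * N := by
    have : J * (q * s) ≤ (q - 3) * N := Nat.div_mul_le_self _ _
    have h' : ((J * (q * s) : ℕ) : ℝ) ≤ (((q - 3) * N : ℕ) : ℝ) := by exact_mod_cast this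
    push_cast [Nat.cast_sub (by omega : 3 ≤ q)] at h'
    exact h'
  have hJlow : (q - 3) * (N : ℝ) < (J + 1) * (q * s) := by
    have : (q - 3) * N < (J + 1) * (q * s) := by
      have hpos : 0 < q * s := Nat.mul_pos (by omega) (by omega)
      rw [hJ]
      exact (Nat.div_lt_iff_lt_mul hpos).1 (Nat.lt_succ_self _)
    have h' : (((q - 3) * N : ℕ) : ℝ) < (((J + 1) * (q * s) : ℕ) : ℝ) := by exact_mod_cast this
    push_cast [Nat.cast_sub (by omega : 3 ≤ q)] at h'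
    exact h'
  have hmge : (N : ℝ) / q ^ 2 - 1 < ((N / q / q : ℕ) : ℝ) := by
    rw [Nat.div_div_eq_div_mul]
    have : (N : ℝ) / (q ^ 2) < ((N / (q * q) : ℕ) : ℝ) + 1 := by
      rw [div_lt_iff₀ (by positivity)]
      have := Nat.lt_div_mul_add (a := N) (b := q * q) (Nat.mul_pos (by omega) (by omega))
      have h' : (N : ℝ) < ((N / (q * q) * (q * q) + q * q : ℕ) : ℝ) := by exact_mod_cast this
      push_cast at h' ⊢
      nlinarith
    linarith
  -- N is large compared with q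
  have hNq : 100 * (q : ℝ) ^ 6 ≤ 64 * N := by
    have g1 : (q : ℝ) ^ 6 ≤ (2 * ℓ) ^ 6 := pow_le_pow_left₀ hq0.le hq2 6
    have g2 : (2 * ℓ) ^ 6 = 64 * ℓ ^ 6 := by ring
    linarith
  have hq2pos : (0 : ℝ) < (q : ℝ) ^ 2 := by positivity
  have hNq2 : 2 ≤ (N : ℝ) / q ^ 2 := by
    rw [le_div_iff₀ hq2pos]
    have g1 : (q : ℝ) ^ 2 * 1000 ^ 4 ≤ (q : ℝ) ^ 6 := by
      have e : (q : ℝ) ^ 6 = (q : ℝ) ^ 2 * (q : ℝ) ^ 4 := by ring
      rw [e]
      apply mul_le_mul_of_nonneg_left _ hq2pos.le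
      exact pow_le_pow_left₀ (by norm_num) hqR 4
    linarith
  refine ⟨q, d, s, J, ⟨by omega, ?_, ?_, ?_, ?_, hs1, hsle⟩, ?_⟩
  · -- q² ≤ N
    have : (q : ℝ) ^ 2 ≤ N := by
      rw [le_div_iff₀ hq2pos] at hNq2
      linarith
    exact_mod_cast this
  · -- exponential condition
    have b0 : Real.log N ≤ q := by
      have : Real.log N = ℓ * Real.log 2 := by
        rw [hℓ, Real.logb]
        have hl : Real.log 2 ≠ 0 := (Real.log_pos (by norm_num)).ne'
        field_simp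
      rw [this]
      have h2' : Real.log 2 ≤ 1 := by
        have := Real.log_two_lt_d9
        linarith
      nlinarith
    have b2 : (N : ℝ) * Real.exp (-(2 * (1 / (q : ℝ)) ^ 2 * ((N / q / q : ℕ) : ℝ))) ≤
        Real.exp (q + -(2 * (1 / (q : ℝ)) ^ 2 * (N / q ^ 2 - 1))) := by
      rw [Real.exp_add]
      apply mul_le_mul _ _ (Real.exp_pos _).le (Real.exp_pos _).le
      · rw [← Real.log_le_iff_le_exp hN0]
        exact b0
      · apply Real.exp_le_exp.2
        apply neg_le_neg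
        apply mul_le_mul_of_nonneg_left hmge.le
        positivity
    refine lt_of_le_of_lt b2 ?_
    rw [Real.exp_lt_one_iff]
    have b3 : (q : ℝ) + -(2 * (1 / (q : ℝ)) ^ 2 * (N / q ^ 2 - 1)) =
        (1 / (q : ℝ) ^ 4) * (q ^ 5 + 2 * q ^ 2 - 2 * N) := by
      field_simp
      ring
    rw [b3]
    apply mul_neg_of_pos_of_neg (by positivity)
    have b4 : (q : ℝ) ^ 5 * 1000 ≤ (q : ℝ) ^ 6 := by
      have e : (q : ℝ) ^ 6 = (q : ℝ) ^ 5 * q := by ring
      rw [e]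
      exact mul_le_mul_of_nonneg_left hqR (by positivity)
    have b5 : (q : ℝ) ^ 2 * 1000 ^ 4 ≤ (q : ℝ) ^ 6 := by
      have e : (q : ℝ) ^ 6 = (q : ℝ) ^ 2 * (q : ℝ) ^ 4 := by ring
      rw [e]
      apply mul_le_mul_of_nonneg_left _ hq2pos.le
      exact pow_le_pow_left₀ (by norm_num) hqR 4
    linarith
  · -- hubs
    have c1 : ((J * d * q : ℕ) : ℝ) ≤ (N : ℝ) / q ^ 2 - 1 := by
      push_cast
      have hJs : (J : ℝ) * s ≤ N := by
        have : (q : ℝ) * (J * s) ≤ q * N := by nlinarith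
        exact le_of_mul_le_mul_left this hq0
      have hJq : (J : ℝ) * (3 * q ^ 4) ≤ N := by
        refine le_trans ?_ hJs
        exact mul_le_mul_of_nonneg_left hs3 (Nat.cast_nonneg _)
      have hJ2 : (J : ℝ) * d * q ≤ (J : ℝ) * q * q := by
        have : (0 : ℝ) ≤ (J : ℝ) * q := by positivity
        nlinarith
      have hJ3 : (J : ℝ) * q * q ≤ (N : ℝ) / q ^ 2 / 2 := by
        rw [le_div_iff₀ (by norm_num), le_div_iff₀ hq2pos]
        have : (J : ℝ) * q * q * 2 * q ^ 2 ≤ J * (3 * q ^ 4) := by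
          have h0 : (0 : ℝ) ≤ (J : ℝ) * q ^ 4 := by positivity
          nlinarith
        linarith
      linarith
    have c10 : ((J * d * q : ℕ) : ℝ) < ((N / q / q : ℕ) : ℝ) := lt_of_le_of_lt c1 hmge
    exact_mod_cast c10.le
  · have : J * (q * s) ≤ (q - 3) * N := Nat.div_mul_le_self _ _
    calc q * (J * s) = J * (q * s) := by ring
      _ ≤ _ := this
  · -- number of edges
    have f1 : (s : ℝ) ≤ N / q := by
      refine hsle.trans ?_
      have : ρ ^ d ≤ 1 := pow_le_one₀ hρ0.le hρ1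
      have h0 : (0 : ℝ) ≤ N / q := by positivity
      nlinarith
    have f2 : (1 - 4 / (q : ℝ)) * N ≤ J * s := by
      have f3 : (q : ℝ) * ((1 - 4 / (q : ℝ)) * N) ≤ q * (J * s) := by
        have f4 : (q : ℝ) * ((1 - 4 / (q : ℝ)) * N) = (q - 4) * N := by
          field_simp
        rw [f4]
        have f5 : (q : ℝ) * s ≤ N := by
          have := mul_le_mul_of_nonneg_left f1 hq0.le
          rwa [mul_div_cancel₀ _ hq0.ne'] at this
        nlinarith
      exact le_of_mul_le_mul_left f3 hq0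
    have d3 : ((J * d * s : ℕ) : ℝ) = (J * s) * d := by push_cast; ring
    rw [d3]
    have hX0 : 0 ≤ ℓ - 5 * m - 43 := by linarith
    have hXd : ℓ - 5 * m - 43 ≤ d := by linarith
    have h4q : 0 ≤ 1 - 4 / (q : ℝ) := by
      have : 4 / (q : ℝ) ≤ 1 := by
        rw [div_le_one hq0]
        linarith
      linarith
    calc (N : ℝ) * (ℓ - 5 * m - 47) ≤ ((1 - 4 / (q : ℝ)) * N) * (ℓ - 5 * m - 43) := by
          have g1 : 4 / (q : ℝ) * (ℓ - 5 * m - 43) ≤ 4 := by
            rw [div_mul_eq_mul_div, div_le_iff₀ hq0]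
            nlinarith
          have g2 : ((1 - 4 / (q : ℝ)) * N) * (ℓ - 5 * m - 43) =
              N * ((ℓ - 5 * m - 43) - 4 / (q : ℝ) * (ℓ - 5 * m - 43)) := by ring
          rw [g2]
          apply mul_le_mul_of_nonneg_left _ hN0.le
          linarith
      _ ≤ (J * s) * (ℓ - 5 * m - 43) := mul_le_mul_of_nonneg_right f2 hX0
      _ ≤ (J * s) * d := mul_le_mul_of_nonneg_left hXd (by positivity)

end Pool.Agent.Y14.RE
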